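import Pool.Agent.H178Z.BoxProof

open Pool.Agent.H178Z.Box

/-- For every finite simple graph `G` and every Kneser representation of `G` by a finite
hypergraph `H = (W, E)`: `cd(H) ≤ coind(B(G)) + 2`. -/
theorem Pool.Agent.Results.MP_1c213c_co.ACdLeCoind.result
    {V W : Type} [Fintype V] [Fintype W] (G : SimpleGraph V)
    (E : Finset (Finset W)) (φ : V → Finset W) (hφ : IsKneserRep G E φ) :
    cd E ≤ coind (boxSwap G) + 2 :=
  cd_le G E φ hφ
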